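import Pool.Agent.H20.MT.Defs

/-! # properties of the weight `rho` -/

set_option autoImplicit false

namespace MTA
open Finset

theorem rho_nonneg (v : ℝ) : 0 ≤ rho v := Real.smoothTransition.nonneg _

theorem rho_le_one (v : ℝ) : rho v ≤ 1 := Real.smoothTransition.le_one _

theorem rho_one {v : ℝ} (h : |v| ≤ 1) : rho v = 1 :=
  Real.smoothTransition.one_of_one_le (by linarith)

theorem rho_zero {v : ℝ} (h : 2 ≤ |v|) : rho v = 0 :=
  Real.smoothTransition.zero_of_nonpos (by linarith)

theorem rho_neg (v : ℝ) : rho (-v) = rho v := by simp [rho]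

theorem rho_contDiff : ContDiff ℝ (⊤ : ℕ∞) rho := by
  rw [contDiff_iff_contDiffAt]
  intro v
  by_cases hv : v = 0
  · subst hv
    have h : rho =ᶠ[nhds 0] fun _ => (1 : ℝ) := by
      filter_upwards [Metric.ball_mem_nhds (0 : ℝ) one_pos] with w hw
      exact rho_one (by
        rw [Metric.mem_ball, dist_zero_right, Real.norm_eq_abs] at hw
        exact hw.le)
    exact contDiffAt_const.congr_of_eventuallyEq h
  · unfold rho
    refine Real.smoothTransition.contDiffAt.comp v ?_
    exact contDiffAt_const.sub (contDiffAt_abs hv)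

theorem rho_hasCompactSupport : HasCompactSupport rho := by
  refine HasCompactSupport.of_support_subset_isCompact (isCompact_Icc (a := (-2 : ℝ)) (b := 2)) ?_
  intro v hv
  rw [Function.mem_support] at hv
  by_contra h
  apply hv
  apply rho_zero
  rw [Set.mem_Icc, not_and_or] at h
  rcases h with h | h
  · rw [not_le] at h
    rw [abs_of_neg (by linarith)]; linarith
  · rw [not_le] at h
    rw [abs_of_pos (by linarith)]; linarith

theorem smoothTransition_monotone : Monotone Real.smoothTransition := by
  intro x y hxy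
  unfold Real.smoothTransition
  have hpos : ∀ x : ℝ, 0 < expNegInvGlue x + expNegInvGlue (1 - x) := Real.smoothTransition.pos_denom
  rw [div_le_div_iff₀ (hpos x) (hpos y)]
  have h1 : expNegInvGlue x ≤ expNegInvGlue y := expNegInvGlue.monotone hxy
  have h2 : expNegInvGlue (1 - y) ≤ expNegInvGlue (1 - x) := expNegInvGlue.monotone (by linarith)
  nlinarith [expNegInvGlue.nonneg x, expNegInvGlue.nonneg y, expNegInvGlue.nonneg (1 - x),
    expNegInvGlue.nonneg (1 - y), mul_le_mul h1 h2 (expNegInvGlue.nonneg _) (expNegInvGlue.nonneg _)]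

theorem rho_anti {u v : ℝ} (h : |u| ≤ |v|) : rho v ≤ rho u :=
  smoothTransition_monotone (by linarith)

theorem Emax_nonneg (c : ℕ) (x : ℝ) (m : ℕ) : 0 ≤ Emax c x m := by
  refine Real.iSup_nonneg fun a => ?_
  split_ifs
  · exact abs_nonneg _
  · exact le_rfl

theorem le_Emax (c : ℕ) (x : ℝ) (m a : ℕ) (ha : a < m) (h : a.Coprime m) :
    |EE c x m a| ≤ Emax c x m := by
  have := le_ciSup (f := fun a : Fin m => if (a : ℕ).Coprime m then |EE c x m a| else 0)
    (Set.finite_range _).bddAbove ⟨a, ha⟩
  simp only [if_pos h] at this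
  exact this

end MTA
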