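import Mathlib

/-!
# Project MTA: definitions

Infinitely many primes `p` with a prime `q`, `(p-1) ∣ (q-1)`, `p` a primitive root mod `q`.
-/

set_option autoImplicit false

namespace MTA
open Finset

/-! ### the smooth weight -/

/-- the weight on logarithmic scale: `1` on `|v| ≤ 1`, `0` for `|v| ≥ 2` -/
noncomputable def rho (v : ℝ) : ℝ := Real.smoothTransition (2 - |v|)

/-- its integral on the linear scale -/
noncomputable def Irho : ℝ := ∫ v in Set.Ioi (0 : ℝ), rho (Real.log v)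

/-! ### squarefree sums -/

/-- squarefree integers in `[1,y]` coprime to `W` -/
noncomputable def SF (W : ℕ) (y : ℝ) : Finset ℕ :=
  (Icc 1 ⌊y⌋₊).filter (fun a => Squarefree a ∧ a.Coprime W)

noncomputable def Msum (W : ℕ) (y : ℝ) : ℝ := ∑ a ∈ SF W y, (1 : ℝ) / a

/-- the weight function `G` -/
noncomputable def GG (α V : ℝ) (a : ℕ) : ℝ := if (a : ℝ) ≤ V then 1 / (1 + α * Real.log a) else 0

noncomputable def A1s (W : ℕ) (V α : ℝ) : ℝ := ∑ a ∈ SF W V, GG α V a / a
noncomputable def A2s (W : ℕ) (V α : ℝ) : ℝ := ∑ a ∈ SF W V, GG α V a ^ 2 / a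
noncomputable def A3s (W : ℕ) (V α : ℝ) : ℝ := ∑ a ∈ SF W V, GG α V a ^ 2 * Real.log a / a

/-! ### configurations -/

/-- the sifting primes -/
noncomputable def PP (W : ℕ) (Y : ℝ) : Finset ℕ := (Icc 2 ⌊Y⌋₊).filter (fun p => p.Prime ∧ ¬ p ∣ W)

/-- a configuration: to each prime of `P` at most one label in `{0,…,n}`; label `0` is the form `t`,
label `k+1` the form `2^(e k) t + 1` -/
abbrev Cfg (P : Finset ℕ) (n : ℕ) := ↥P → Option (Fin (n + 1))

section cfg
variable {P : Finset ℕ} {n : ℕ}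

/-- product of the primes of `D` -/
def qq (D : Cfg P n) : ℕ := ∏ p : ↥P, if (D p).isSome then (p : ℕ) else 1

/-- product of the primes of `D` with label `k` -/
def rr (D : Cfg P n) (k : Fin (n + 1)) : ℕ := ∏ p : ↥P, if D p = some k then (p : ℕ) else 1

/-- `D` has no prime with label `k` -/
def Avoid (k : Fin (n + 1)) (D : Cfg P n) : Prop := ∀ p, D p ≠ some k

instance (k : Fin (n + 1)) : DecidablePred (Avoid (P := P) k) := fun D => by
  unfold Avoid; infer_instance

/-- product over the support -/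
noncomputable def sprod (f : ℕ → ℝ) (D : Cfg P n) : ℝ := ∏ p : ↥P, if (D p).isSome then f p else 1

/-- sum of a function over configurations against a product of local matrices -/
noncomputable def ltrans {J : Type} [Fintype J] [DecidableEq J] (T : ℕ → J → J → ℝ)
    (y : (↥P → J) → ℝ) (B : ↥P → J) : ℝ :=
  ∑ A : ↥P → J, y A * ∏ p : ↥P, T p (A p) (B p)

/-- quadratic form with a product kernel -/
noncomputable def qform {J : Type} [Fintype J] [DecidableEq J] (w : ℕ → J → J → ℝ)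
    (l : (↥P → J) → ℝ) : ℝ :=
  ∑ D : ↥P → J, ∑ E : ↥P → J, l D * l E * ∏ p : ↥P, w p (D p) (E p)

end cfg

section loc
variable {n : ℕ}

/-- local matrix: from `y` to `lambda` -/
noncomputable def Ls (n : ℕ) (p : ℕ) : Option (Fin (n + 1)) → Option (Fin (n + 1)) → ℝ
  | none, none => 1
  | none, some _ => 0
  | some _, none => 1 / p
  | some k, some l => if k = l then -1 else 0

/-- integer model -/
noncomputable def wU (n : ℕ) (p : ℕ) : Option (Fin (n + 1)) → Option (Fin (n + 1)) → ℝ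
  | none, none => 1
  | none, some _ => 1 / p
  | some _, none => 1 / p
  | some k, some l => if k = l then 1 / p else 0

/-- prime model for the form with label `k` -/
noncomputable def wK {n : ℕ} (k : Fin (n + 1)) (p : ℕ) : Option (Fin (n + 1)) → Option (Fin (n + 1)) → ℝ
  | none, none => 1
  | none, some l => if l = k then 0 else 1 / ((p : ℝ) - 1)
  | some l, none => if l = k then 0 else 1 / ((p : ℝ) - 1)
  | some l, some m => if l = m ∧ l ≠ k then 1 / ((p : ℝ) - 1) else 0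

/-- the local factor at a prime `p₀ ∣ t` -/
noncomputable def wB (n : ℕ) (p : ℕ) (x y : Option (Fin (n + 1))) : ℝ :=
  if (x = none ∨ x = some 0) ∧ (y = none ∨ y = some 0) then 1 / ((p : ℝ) - 1) else 0

/-- prime model restricted to `p₀ ∣ t` -/
noncomputable def wKB {n : ℕ} (k : Fin (n + 1)) (p0 : ℕ) (p : ℕ) :
    Option (Fin (n + 1)) → Option (Fin (n + 1)) → ℝ :=
  if p = p0 then wB n p else wK k p

/-- local matrix from `y` to the coefficients of `f` in the orthogonal basis of the prime model -/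
noncomputable def mK {n : ℕ} (k : Fin (n + 1)) (p : ℕ) : Option (Fin (n + 1)) → Option (Fin (n + 1)) → ℝ
  | none, none => 1
  | none, some _ => 0
  | some l, none => if l = k then 1 / p else -(1 / ((p : ℝ) * (p - 1)))
  | some l, some m => if l = m ∧ l ≠ k then -1 else 0

noncomputable def mB (n : ℕ) (p : ℕ) : Option (Fin (n + 1)) → Option (Fin (n + 1)) → ℝ
  | none, none => 1
  | some l, none => if l = 0 then 1 / p - 1 else 1 / p
  | _, some _ => 0

noncomputable def mKB {n : ℕ} (k : Fin (n + 1)) (p0 : ℕ) (p : ℕ) :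
    Option (Fin (n + 1)) → Option (Fin (n + 1)) → ℝ :=
  if p = p0 then mB n p else mK k p

/-- the main part of `mK` without signs: only the label `k` is summed out -/
noncomputable def mY {n : ℕ} (k : Fin (n + 1)) (p : ℕ) : Option (Fin (n + 1)) → Option (Fin (n + 1)) → ℝ
  | none, none => 1
  | none, some _ => 0
  | some l, none => if l = k then 1 / p else 0
  | some l, some m => if l = m ∧ l ≠ k then 1 else 0

end loc

/-- the weights `y` -/
noncomputable def yv {P : Finset ℕ} {n : ℕ} (R0 R V α : ℝ) (A : Cfg P n) : ℝ :=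
  if (rr A 0 : ℝ) ≤ R0 ∧ (∏ k : Fin n, (rr A k.succ : ℝ)) ≤ R then
    ∏ k : Fin n, GG α V (rr A k.succ) else 0

/-- the sieve weights `lambda` -/
noncomputable def lamv {P : Finset ℕ} {n : ℕ} (y : Cfg P n → ℝ) : Cfg P n → ℝ := ltrans (Ls n) y

/-! ### the forms -/

/-- the forms: `0 ↦ t`, `k+1 ↦ c k * t + 1` -/
def hh {n : ℕ} (c : Fin n → ℕ) (k : Fin (n + 1)) (t : ℕ) : ℕ :=
  Fin.cases t (fun i => c i * t + 1) k

/-- every prime of `D` divides the form of its label -/
def Dv {P : Finset ℕ} {n : ℕ} (c : Fin n → ℕ) (D : Cfg P n) (t : ℕ) : Prop :=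
  ∀ p : ↥P, ∀ k, D p = some k → (p : ℕ) ∣ hh c k t

open Classical in
/-- the sieve sum -/
noncomputable def ff {P : Finset ℕ} {n : ℕ} (c : Fin n → ℕ) (l : Cfg P n → ℝ) (t : ℕ) : ℝ :=
  ∑ D : Cfg P n, if Dv c D t then l D else 0

/-- the data of the sieve: forms `t`, `c i * t + 1`, modulus `W`, class `b`; all primes outside `W`
see pairwise incongruent roots of the forms -/
structure TupleOK (n w0 : ℕ) (c : Fin n → ℕ) (W b : ℕ) : Prop where
  pos : 0 < W
  small : ∀ p : ℕ, p.Prime → p ≤ w0 → p ∣ W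
  mono : StrictMono c
  cpos : ∀ i, 1 ≤ c i
  cW : ∀ i, ∀ p : ℕ, p.Prime → p ∣ c i → p ∣ W
  diff : ∀ i j, i < j → ∀ p : ℕ, p.Prime → p ∣ c j - c i → p ∣ W
  cop0 : b.Coprime W
  copk : ∀ i, (c i * b + 1).Coprime W

/-- integers `t ≡ b mod W` in the support of the weight -/
noncomputable def TT (W b : ℕ) (x : ℝ) : Finset ℕ := (Icc 1 ⌊8 * x⌋₊).filter (fun t => t ≡ b [MOD W])

noncomputable def wt (x : ℝ) (t : ℕ) : ℝ := rho (Real.log (t / x))

/-- `log` on primes -/
noncomputable def th (m : ℕ) : ℝ := if m.Prime then Real.log m else 0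

/-! ### primes in progressions -/

/-- weighted prime sum for the form `c t + 1` -/
noncomputable def TH (c : ℕ) (x : ℝ) : ℝ :=
  ∑ p ∈ (Icc 2 (⌊8 * c * x⌋₊ + 1)).filter Nat.Prime,
    Real.log p * rho (Real.log (((p : ℝ) - 1) / (c * x)))

noncomputable def THa (c : ℕ) (x : ℝ) (m a : ℕ) : ℝ :=
  ∑ p ∈ (Icc 2 (⌊8 * c * x⌋₊ + 1)).filter (fun p => p.Prime ∧ p ≡ a [MOD m]),
    Real.log p * rho (Real.log (((p : ℝ) - 1) / (c * x)))

noncomputable def EE (c : ℕ) (x : ℝ) (m a : ℕ) : ℝ := THa c x m a - TH c x / m.totient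

/-- the maximal error over reduced classes -/
noncomputable def Emax (c : ℕ) (x : ℝ) (m : ℕ) : ℝ :=
  ⨆ a : Fin m, if (a : ℕ).Coprime m then |EE c x m a| else 0

/-- smoothed character sums over prime powers -/
noncomputable def psiR (X : ℝ) {r : ℕ} (χ : DirichletCharacter ℂ r) : ℂ :=
  ∑ n ∈ Icc 1 ⌊8 * X⌋₊, (ArithmeticFunction.vonMangoldt n : ℂ) * χ n * (rho (Real.log (n / X)) : ℂ)

/-- smoothed character sums over primes -/
noncomputable def thetaR (c : ℕ) (x : ℝ) {r : ℕ} (χ : DirichletCharacter ℂ r) : ℂ :=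
  ∑ p ∈ (Icc 2 (⌊8 * c * x⌋₊ + 1)).filter Nat.Prime,
    (Real.log p : ℂ) * χ p * (rho (Real.log (((p : ℝ) - 1) / (c * x))) : ℂ)

/-- no exceptional real character for `x` -/
def Good (B : ℕ) (x : ℝ) : Prop :=
  ∀ (r : ℕ) [NeZero r], (r : ℝ) ≤ (Real.log x) ^ B → ∀ χ : DirichletCharacter ℂ r,
    χ.IsPrimitive → χ ≠ 1 → χ ^ 2 = 1 → (Real.log x) ^ (-(1 / 8) : ℝ) ≤ ‖χ.LFunction 1‖

/-- `log (r (|t|+3))` -/
noncomputable def LL (r : ℕ) (t : ℝ) : ℝ := Real.log (r * (|t| + 3))

/-- Dirichlet series of `χ log^j` -/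
noncomputable def Lj {r : ℕ} (χ : DirichletCharacter ℂ r) (j : ℕ) (s : ℂ) : ℂ :=
  LSeries (fun n => χ n * (Real.log n : ℂ) ^ j) s

/-- Dirichlet series of `χ Λ log^j` -/
noncomputable def Fj {r : ℕ} (χ : DirichletCharacter ℂ r) (j : ℕ) (s : ℂ) : ℂ :=
  LSeries (fun n => χ n * (ArithmeticFunction.vonMangoldt n : ℂ) * (Real.log n : ℂ) ^ j) s

/-- a real matrix is a Gram matrix -/
def IsGram {J : Type} (M : J → J → ℝ) : Prop :=
  ∃ (m : ℕ) (g : Fin m → J → ℝ), ∀ a b, M a b = ∑ i, g i a * g i b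

open Classical in
/-- primes `q` for which the classes of `(2^(d i) - 1) / 2^(d i)` lie in a group of order `≤ T` -/
def GMset {K : ℕ} (d : Fin K → ℕ) (T : ℝ) : Set ℕ :=
  {q | q.Prime ∧ q ≠ 2 ∧ ∃ M : ℕ, 1 ≤ M ∧ (M : ℝ) ≤ T ∧
    ∀ i, ((2 ^ d i - 1 : ℕ) : ZMod q) ^ M = ((2 ^ d i : ℕ) : ZMod q) ^ M}

end MTA
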