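import Pool.Agent.H20.MT.Defs

/-!
# Project MTA: statements of the modules

Paper proof: `/team-store/MT_146b98.md`.
-/

set_option autoImplicit false

namespace MTA
open Finset

/-! ## Part A: linear algebra of the sieve -/

/-- tensor products of positive semidefinite matrices are monotone -/
def S_TENS : Prop := ∀ (ι J : Type) [Fintype ι] [DecidableEq ι] [Fintype J] [DecidableEq J]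
  (M N : ι → J → J → ℝ), (∀ i, IsGram (M i)) → (∀ i, IsGram (fun a b => N i a b - M i a b)) →
  ∀ v : (ι → J) → ℝ, ∑ A, ∑ B, v A * v B * ∏ i, M i (A i) (B i) ≤
    ∑ A, ∑ B, v A * v B * ∏ i, N i (A i) (B i)

/-- change of basis in a quadratic form with product kernel -/
def S_CHB : Prop := ∀ (P : Finset ℕ) (J : Type) [Fintype J] [DecidableEq J] (w T M : ℕ → J → J → ℝ),
  (∀ p ∈ P, ∀ x y, w p x y = ∑ a, ∑ b, T p x a * T p y b * M p a b) →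
  ∀ l : (↥P → J) → ℝ, qform w l = qform M (ltrans T l)

/-- composition of two local transforms -/
def S_COMP : Prop := ∀ (P : Finset ℕ) (J : Type) [Fintype J] [DecidableEq J] (S T U : ℕ → J → J → ℝ),
  (∀ p ∈ P, ∀ x z, U p x z = ∑ y, S p x y * T p y z) →
  ∀ y : (↥P → J) → ℝ, ltrans T (ltrans S y) = ltrans U y

/-- upper bound, integer model -/
def S_QU : Prop := ∀ (P : Finset ℕ) (n : ℕ), (∀ p ∈ P, p.Prime ∧ n + 1 ≤ p) →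
  ∀ y : Cfg P n → ℝ, qform (wU n) (lamv y) ≤ ∑ A : Cfg P n, (y A) ^ 2 / (qq A : ℝ)

/-- lower bound, prime model -/
def S_QK : Prop := ∀ (P : Finset ℕ) (n : ℕ) (k : Fin (n + 1)), (∀ p ∈ P, p.Prime ∧ n + 2 ≤ p) →
  ∀ y : Cfg P n → ℝ,
    ∑ B : Cfg P n with Avoid k B, (ltrans (mK k) y B) ^ 2 *
      sprod (fun p => 1 / ((p : ℝ) - 1) * (1 - n / ((p : ℝ) - 1))) B ≤ qform (wK k) (lamv y)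

/-- upper bound, prime model restricted to `p₀ ∣ t` -/
def S_QB : Prop := ∀ (P : Finset ℕ) (n : ℕ) (k : Fin (n + 1)), k ≠ 0 →
  (∀ p ∈ P, p.Prime ∧ n + 2 ≤ p) → ∀ p0 : ↥P, ∀ y : Cfg P n → ℝ,
    qform (wKB k (p0 : ℕ)) (lamv y) ≤ 1 / (((p0 : ℕ) : ℝ) - 1) *
      ∑ B : Cfg P n with Avoid k B ∧ B p0 = none, (ltrans (mKB k (p0 : ℕ)) y B) ^ 2 *
        sprod (fun p => 1 / ((p : ℝ) - 1)) B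

/-! ## Part B: sums over configurations -/

/-- `A'` extends `A` -/
def Ext {P : Finset ℕ} {n : ℕ} (A A' : Cfg P n) : Prop := ∀ p, A p ≠ none → A' p = A p

/-- the weights `y` are nonnegative, at most one and decreasing -/
def S_MONO : Prop := ∀ (P : Finset ℕ) (n : ℕ), (∀ p ∈ P, p.Prime) → ∀ R0 R V α : ℝ, 0 ≤ α →
  (∀ A : Cfg P n, 0 ≤ yv R0 R V α A ∧ yv R0 R V α A ≤ 1) ∧
  ∀ A A' : Cfg P n, Ext A A' → yv R0 R V α A' ≤ yv R0 R V α A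

def S_SUMU : Prop := ∀ (W n : ℕ) (Y R0 R V α : ℝ), 0 < W → 0 ≤ α →
  ∑ A : Cfg (PP W Y) n, (yv R0 R V α A) ^ 2 / (qq A : ℝ) ≤ Msum W R0 * (A2s W V α) ^ n

/-- the unsigned main part dominates -/
def S_CKL : Prop := ∀ n : ℕ, ∃ w0 : ℕ, ∀ P : Finset ℕ, (∀ p ∈ P, p.Prime ∧ w0 < p) →
  ∀ k : Fin (n + 1), ∀ y : Cfg P n → ℝ, (∀ A, 0 ≤ y A) → (∀ A A', Ext A A' → y A' ≤ y A) →
  ∀ B, Avoid k B → 9 / 10 * (ltrans (mY k) y B) ^ 2 ≤ (ltrans (mK k) y B) ^ 2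

/-- sums over squarefree numbers coprime to `q`, decreasing `f` -/
def S_COPR : Prop := ∀ (W q : ℕ) (V : ℝ) (f : ℕ → ℝ), 0 < W → 0 < q → Squarefree q → (∀ a, 0 ≤ f a) →
  (∀ a b : ℕ, 1 ≤ a → a ≤ b → f b ≤ f a) →
  (∏ p ∈ q.primeFactors, (1 - 1 / (p : ℝ))) * ∑ a ∈ SF W V, f a / a ≤
    ∑ a ∈ (SF W V).filter (fun a => a.Coprime q), f a / a

def S_YKL : Prop := ∀ (W n : ℕ) (Y R0 R V α : ℝ), 0 < W → 0 ≤ α → 1 ≤ V → V ≤ Y →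
  ∀ k : Fin n, ∀ B : Cfg (PP W Y) n, Avoid k.succ B → (rr B 0 : ℝ) ≤ R0 →
  (∏ l ∈ univ.erase k, (rr B l.succ : ℝ)) * V ≤ R →
  (∏ l ∈ univ.erase k, GG α V (rr B l.succ)) * A1s W V α * sprod (fun p => 1 - 1 / (p : ℝ)) B ≤
    ltrans (mY k.succ) (yv R0 R V α) B

/-- main sum over configurations, with weight `1/qq` -/
def S_WS1 : Prop := ∀ n : ℕ, 1 ≤ n → ∃ w0 : ℕ, ∀ (W : ℕ), 0 < W → (∀ p : ℕ, p.Prime → p ≤ w0 → p ∣ W) →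
  ∀ Y R0 R V α : ℝ, 0 ≤ α → 1 ≤ V → V < R → V ≤ Y → 1 ≤ R0 → R0 ≤ Y →
  n * A3s W V α ≤ 1 / 4 * A2s W V α * Real.log (R / V) → ∀ k : Fin n,
  2 / 3 * Msum W R0 * (A2s W V α) ^ (n - 1) ≤
    ∑ B : Cfg (PP W Y) n with Avoid k.succ B ∧ (rr B 0 : ℝ) ≤ R0 ∧
        (∏ l ∈ univ.erase k, (rr B l.succ : ℝ)) * V ≤ R,
      (∏ l ∈ univ.erase k, GG α V (rr B l.succ)) ^ 2 / (qq B : ℝ)

/-- the arithmetic factor costs little -/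
def S_WS2 : Prop := ∀ n : ℕ, 1 ≤ n → ∃ w0 : ℕ, ∀ (W : ℕ), 0 < W → (∀ p : ℕ, p.Prime → p ≤ w0 → p ∣ W) →
  ∀ Y R0 R V α : ℝ, 0 ≤ α → 0 ≤ V → ∀ k : Fin n,
  15 / 16 * ∑ B : Cfg (PP W Y) n with Avoid k.succ B ∧ (rr B 0 : ℝ) ≤ R0 ∧
        (∏ l ∈ univ.erase k, (rr B l.succ : ℝ)) * V ≤ R,
      (∏ l ∈ univ.erase k, GG α V (rr B l.succ)) ^ 2 / (qq B : ℝ) ≤
    ∑ B : Cfg (PP W Y) n with Avoid k.succ B ∧ (rr B 0 : ℝ) ≤ R0 ∧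
        (∏ l ∈ univ.erase k, (rr B l.succ : ℝ)) * V ≤ R,
      (∏ l ∈ univ.erase k, GG α V (rr B l.succ)) ^ 2 *
        sprod (fun p => 1 / ((p : ℝ) - 1) * (1 - n / ((p : ℝ) - 1)) * (1 - 1 / (p : ℝ)) ^ 2) B

def S_WSUM : Prop := ∀ n : ℕ, 1 ≤ n → ∃ w0 : ℕ, ∀ (W : ℕ), 0 < W → (∀ p : ℕ, p.Prime → p ≤ w0 → p ∣ W) →
  ∀ Y R0 R V α : ℝ, 0 ≤ α → 1 ≤ V → V < R → V ≤ Y → 1 ≤ R0 → R0 ≤ Y →
  n * A3s W V α ≤ 1 / 4 * A2s W V α * Real.log (R / V) → ∀ k : Fin n,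
  5 / 8 * Msum W R0 * (A2s W V α) ^ (n - 1) ≤
    ∑ B : Cfg (PP W Y) n with Avoid k.succ B ∧ (rr B 0 : ℝ) ≤ R0 ∧
        (∏ l ∈ univ.erase k, (rr B l.succ : ℝ)) * V ≤ R,
      (∏ l ∈ univ.erase k, GG α V (rr B l.succ)) ^ 2 *
        sprod (fun p => 1 / ((p : ℝ) - 1) * (1 - n / ((p : ℝ) - 1)) * (1 - 1 / (p : ℝ)) ^ 2) B

/-- lower bound for the prime model -/
def S_LOW : Prop := ∀ n : ℕ, 1 ≤ n → ∃ w0 : ℕ, ∀ (W : ℕ), 0 < W → (∀ p : ℕ, p.Prime → p ≤ w0 → p ∣ W) →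
  ∀ Y R0 R V α : ℝ, 0 ≤ α → 1 ≤ V → V < R → V ≤ Y → 1 ≤ R0 → R0 ≤ Y →
  n * A3s W V α ≤ 1 / 4 * A2s W V α * Real.log (R / V) → ∀ k : Fin n,
  1 / 2 * Msum W R0 * (A2s W V α) ^ (n - 1) * (A1s W V α) ^ 2 ≤
    qform (wK k.succ) (lamv (yv R0 R V α : Cfg (PP W Y) n → ℝ))

/-- window function at label `0` -/
noncomputable def sig1 (P : Finset ℕ) (R0 : ℝ) (p0 : ℕ) (r : ℕ) : ℝ :=
  ∑ E ∈ P.powerset, (∏ p ∈ E, 1 / ((p : ℝ) * (p - 1))) *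
    (if R0 / p0 < (r : ℝ) * ∏ p ∈ E, (p : ℝ) ∧ (r : ℝ) * ∏ p ∈ E, (p : ℝ) ≤ R0 then 1 else 0)

noncomputable def sgm (n : ℕ) (P : Finset ℕ) (R0 : ℝ) (p0 : ℕ) (r : ℕ) : ℝ :=
  sig1 P R0 p0 r + (n + 1) / p0 * (if (r : ℝ) ≤ R0 then 1 else 0)

/-- pointwise bound for the coefficients when `p₀ ∣ t` -/
def S_CBU : Prop := ∀ n : ℕ, ∃ w0 : ℕ, ∀ (W : ℕ), 0 < W → (∀ p : ℕ, p.Prime → p ≤ w0 → p ∣ W) →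
  ∀ Y R0 R V α : ℝ, 0 ≤ α → ∀ k : Fin n, ∀ p0 : ↥(PP W Y), ∀ B : Cfg (PP W Y) n,
  Avoid k.succ B → B p0 = none →
  |ltrans (mKB k.succ (p0 : ℕ)) (yv R0 R V α) B| ≤ 2 * A1s W V α *
    (∏ l ∈ univ.erase k, GG α V (rr B l.succ)) * sgm n (PP W Y) R0 p0 (rr B 0)

/-- sum over configurations to product of one-variable sums (no relation between the labels) -/
def S_BSUM : Prop := ∀ (W n : ℕ) (Y V α : ℝ), 0 < W → 0 ≤ α → ∀ (k : Fin n) (s : ℕ → ℝ) (R0 : ℝ),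
  (∀ r, 0 ≤ s r) → (∀ r : ℕ, R0 < r → s r = 0) →
  ∑ B : Cfg (PP W Y) n with Avoid k.succ B, (∏ l ∈ univ.erase k, GG α V (rr B l.succ)) ^ 2 *
      s (rr B 0) * sprod (fun p => 1 / ((p : ℝ) - 1)) B ≤
    (∑ r ∈ SF W R0, s r / (r.totient : ℝ)) *
      (∑ a ∈ SF W V, GG α V a ^ 2 / (a.totient : ℝ)) ^ (n - 1)

/-- from `1/φ` to `1/a` -/
def S_PHIN : Prop := ∀ n : ℕ, ∃ w0 : ℕ, ∀ W : ℕ, 0 < W → (∀ p : ℕ, p.Prime → p ≤ w0 → p ∣ W) →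
  (∀ (V α : ℝ), 0 ≤ α → (∑ a ∈ SF W V, GG α V a ^ 2 / (a.totient : ℝ)) ^ (n - 1) ≤
    2 * (A2s W V α) ^ (n - 1)) ∧
  (∀ y : ℝ, ∑ a ∈ SF W y, 1 / (a.totient : ℝ) ≤ 2 * Msum W y) ∧
  (∀ (z Win : ℝ), 1 ≤ z → 0 ≤ Win → (∀ y : ℝ, 0 < y → Msum W y - Msum W (y / z) ≤ Win) →
    ∀ y : ℝ, 0 < y → ∑ a ∈ (SF W y).filter (fun a : ℕ => y / z < (a : ℝ)), 1 / (a.totient : ℝ) ≤ 2 * Win)

/-- bound for the contribution of `p₀ ∣ t`; the constant is absolute -/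
def S_BAD : Prop := ∃ C0 : ℝ, 1 ≤ C0 ∧ ∀ n : ℕ, 1 ≤ n → ∃ w0 : ℕ, ∀ (W : ℕ), 0 < W →
  (∀ p : ℕ, p.Prime → p ≤ w0 → p ∣ W) → ∀ Y R0 R V α : ℝ, 0 ≤ α → 1 ≤ V → 1 ≤ R0 →
  ∀ k : Fin n, ∀ p0 : ↥(PP W Y), ∀ Win : ℝ, 0 ≤ Win →
  (∀ y : ℝ, 0 < y → Msum W y - Msum W (y / (p0 : ℕ)) ≤ Win) →
  qform (wKB k.succ (p0 : ℕ)) (lamv (yv R0 R V α : Cfg (PP W Y) n → ℝ)) ≤
    1 / (((p0 : ℕ) : ℝ) - 1) * ((A1s W V α) ^ 2 * (A2s W V α) ^ (n - 1) *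
      (C0 * Win + C0 * (n + 1) ^ 2 / ((p0 : ℕ) : ℝ) ^ 2 * Msum W R0))

/-! ## Part C: one-variable sums -/

def S_MSUM : Prop := ∀ W : ℕ, 0 < W → ∃ κ C : ℝ, (W.totient : ℝ) / W / 3 ≤ κ ∧
  κ ≤ (W.totient : ℝ) / W ∧ 1 ≤ C ∧ ∀ y : ℝ, 1 ≤ y → |Msum W y - κ * Real.log y| ≤ C

def S_A123 : Prop := ∀ (W : ℕ) (κ C : ℝ), 0 < W → 0 < κ → 1 ≤ C →
  (∀ y : ℝ, 1 ≤ y → |Msum W y - κ * Real.log y| ≤ C) → ∀ V α : ℝ, 1 ≤ V → 0 < α →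
  κ * (Real.log (1 + α * Real.log V) / α) - 2 * C ≤ A1s W V α ∧
  A2s W V α ≤ κ / α + 2 * C ∧
  κ / α * (1 - 1 / (1 + α * Real.log V)) - 2 * C ≤ A2s W V α ∧
  A3s W V α ≤ κ * (Real.log (1 + α * Real.log V) / α ^ 2) + 2 * C / α

/-- Mertens type upper bounds -/
def S_MERT : Prop := ∃ C : ℝ, 1 ≤ C ∧ ∀ z : ℝ, 3 ≤ z →
  ∑ p ∈ (Icc 2 ⌊z⌋₊).filter Nat.Prime, Real.log p / ((p : ℝ) - 1) ≤ Real.log z + C ∧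
  ∑ p ∈ (Icc 2 ⌊z⌋₊).filter Nat.Prime, 1 / ((p : ℝ) - 1) ≤ Real.log (Real.log z) + C

/-- the result of the sieve model -/
def S_MODEL : Prop := ∃ θ : ℝ, 0 < θ ∧ θ ≤ 1 ∧ ∀ Λ : ℝ, 0 < Λ → ∃ n : ℕ, 1 ≤ n ∧ ∃ w0 : ℕ, n + 2 ≤ w0 ∧
  ∀ W : ℕ, 0 < W → (∀ p : ℕ, p.Prime → p ≤ w0 → p ∣ W) → ∃ L0 : ℝ, ∀ L : ℝ, L0 ≤ L →
  ∃ V α : ℝ, 1 ≤ V ∧ V ≤ Real.exp L ∧ 0 ≤ α ∧ ∃ U Z : ℝ, 0 ≤ U ∧ 1 / 8 ≤ Z ∧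
    qform (wU n) (lamv (yv (Real.exp L) (Real.exp L) V α : Cfg (PP W (Real.exp (2 * L))) n → ℝ)) ≤ U ∧
    (∀ k : Fin n, Z ≤
      qform (wK k.succ)
        (lamv (yv (Real.exp L) (Real.exp L) V α : Cfg (PP W (Real.exp (2 * L))) n → ℝ)) -
      ∑ p0 ∈ PP W (Real.exp (θ * L)), qform (wKB k.succ p0)
        (lamv (yv (Real.exp L) (Real.exp L) V α : Cfg (PP W (Real.exp (2 * L))) n → ℝ))) ∧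
    Λ * ((W.totient : ℝ) / W) * L * U ≤ n * Z

/-! ## Part D: from the model to sums over `t` -/

def S_EXC : Prop := ∀ (n w0 : ℕ) (c : Fin n → ℕ) (W b : ℕ), TupleOK n w0 c W b →
  ∀ p : ℕ, p.Prime → ¬ p ∣ W → ∀ k : Fin (n + 1), ∃ a : ℕ, (∀ t, p ∣ hh c k t ↔ t ≡ a [MOD p]) ∧
    ∀ l : Fin (n + 1), l ≠ k → ∀ t, t ≡ a [MOD p] → ¬ p ∣ hh c l t

/-- the set of `t ≡ b mod W` with `Dv c F t` is a residue class modulo `W * qq F`,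
with all forms coprime to `W` -/
def S_CLS : Prop := ∀ (n w0 : ℕ) (c : Fin n → ℕ) (W b : ℕ), TupleOK n w0 c W b →
  ∀ (Y : ℝ) (F : Cfg (PP W Y) n), ∃ a : ℕ,
    (∀ t, (t ≡ b [MOD W] ∧ Dv c F t) ↔ t ≡ a [MOD W * qq F]) ∧
    ∀ k : Fin (n + 1), Avoid k F → (hh c k a).Coprime (W * qq F)

/-- smooth weight in a residue class -/
def S_RES : Prop := ∃ C0 : ℝ, 0 < C0 ∧ ∀ (x : ℝ) (m a : ℕ), 1 ≤ x → 0 < m →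
  |∑ t ∈ (Icc 1 ⌊8 * x⌋₊).filter (fun t => t ≡ a [MOD m]), wt x t - x * Irho / m| ≤ C0

open Classical in
def S_CLSK : Prop := ∀ (n w0 : ℕ) (c : Fin n → ℕ) (W b : ℕ), TupleOK n w0 c W b →
  ∀ (Y x : ℝ) (F : Cfg (PP W Y) n) (k : Fin n), 1 ≤ x → 8 * Y < x →
    (Avoid k.succ F →
      |∑ t ∈ (TT W b x).filter (fun t => Dv c F t), wt x t * th (hh c k.succ t) -
        TH (c k) x / (c k * W * qq F).totient| ≤ Emax (c k) x (c k * W * qq F)) ∧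
    (¬ Avoid k.succ F →
      ∑ t ∈ (TT W b x).filter (fun t => Dv c F t), wt x t * th (hh c k.succ t) = 0)

/-- transfer, integers -/
def S_TRU : Prop := ∃ C0 : ℝ, 0 < C0 ∧ ∀ (n w0 : ℕ) (c : Fin n → ℕ) (W b : ℕ), TupleOK n w0 c W b →
  ∀ (Y x : ℝ) (l : Cfg (PP W Y) n → ℝ), 1 ≤ x →
    |∑ t ∈ TT W b x, wt x t * (ff c l t) ^ 2 - x * Irho / W * qform (wU n) l| ≤
      C0 * (∑ D, |l D|) ^ 2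

/-- transfer, primes -/
def S_TRK : Prop := ∀ (n w0 : ℕ) (c : Fin n → ℕ) (W b : ℕ), TupleOK n w0 c W b →
  ∀ (Y x : ℝ) (l : Cfg (PP W Y) n → ℝ) (k : Fin n), 1 ≤ x → 8 * Y < x →
    |∑ t ∈ TT W b x, wt x t * th (hh c k.succ t) * (ff c l t) ^ 2 -
        TH (c k) x / (c k * W).totient * qform (wK k.succ) l| ≤
      ∑ D, ∑ E, |l D| * |l E| * Emax (c k) x (c k * W * Nat.lcm (qq D) (qq E))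

/-- transfer, primes, `p₀ ∣ t` -/
def S_TRB : Prop := ∀ (n w0 : ℕ) (c : Fin n → ℕ) (W b : ℕ), TupleOK n w0 c W b →
  ∀ (Y x : ℝ) (l : Cfg (PP W Y) n → ℝ) (k : Fin n) (p0 : ↥(PP W Y)), 1 ≤ x → 8 * Y < x →
    |∑ t ∈ (TT W b x).filter (fun t => (p0 : ℕ) ∣ t), wt x t * th (hh c k.succ t) * (ff c l t) ^ 2 -
        TH (c k) x / (c k * W).totient * qform (wKB k.succ (p0 : ℕ)) l| ≤
      ∑ D, ∑ E, |l D| * |l E| *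
        Emax (c k) x (c k * W * Nat.lcm (Nat.lcm (qq D) (qq E)) p0)

/-- size of the sieve weights -/
def S_LAM : Prop := ∀ (W n : ℕ) (Y R0 R V α : ℝ), 0 < W → 0 ≤ α → 1 ≤ R0 → 1 ≤ R →
  ∀ D : Cfg (PP W Y) n,
    |lamv (yv R0 R V α) D| ≤ (1 + Real.log R0) * (1 + Real.log R) ^ n ∧
    (lamv (yv R0 R V α) D ≠ 0 → (qq D : ℝ) ≤ R0 * R)

/-- error sums, in terms of a general nonnegative function of the modulus -/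
def S_ERR : Prop := ∀ (W n : ℕ) (Y : ℝ) (l : Cfg (PP W Y) n → ℝ) (B Q0 z : ℝ) (f : ℕ → ℝ),
  0 < W → 0 ≤ B → 1 ≤ Q0 → 1 ≤ z → z ≤ Y → (∀ q, 0 ≤ f q) → (∀ D, |l D| ≤ B) →
  (∀ D, l D ≠ 0 → (qq D : ℝ) ≤ Q0) →
  (∑ D, ∑ E, |l D| * |l E| * f (Nat.lcm (qq D) (qq E))) +
    (∑ p0 ∈ PP W z, ∑ D, ∑ E, |l D| * |l E| * f (Nat.lcm (Nat.lcm (qq D) (qq E)) p0)) ≤
  2 * B ^ 2 * ∑ q ∈ (Icc 1 ⌊Q0 ^ 2 * z⌋₊).filter (fun q => Squarefree q ∧ q.Coprime W),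
    ((8 * (n + 2) ^ 2 : ℕ) : ℝ) ^ q.primeFactors.card * f q

/-- number of configurations with bounded modulus -/
def S_CNT : Prop := ∀ (P : Finset ℕ) (n : ℕ) (Q0 : ℝ), (∀ p ∈ P, p.Prime ∧ n + 1 ≤ p) → 1 ≤ Q0 →
  ((univ.filter (fun D : Cfg P n => (qq D : ℝ) ≤ Q0)).card : ℝ) ≤ Q0 ^ 2

/-- divisor bound -/
def S_DIV : Prop := ∀ ε : ℝ, 0 < ε → ∃ C : ℝ, 0 < C ∧ ∀ m : ℕ, 1 ≤ m →
  (2 : ℝ) ^ m.primeFactors.card ≤ C * (m : ℝ) ^ ε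

/-- pointwise bound for the sieve sum -/
def S_FBD : Prop := ∀ (n w0 : ℕ) (c : Fin n → ℕ) (W b : ℕ), TupleOK n w0 c W b →
  ∀ (Y B : ℝ) (l : Cfg (PP W Y) n → ℝ) (t : ℕ), 1 ≤ t → 0 ≤ B → (∀ D, |l D| ≤ B) →
    |ff c l t| ≤ B * ∏ k : Fin (n + 1), (2 : ℝ) ^ (hh c k t).primeFactors.card

/-- Chebyshev bounds for the prime sum -/
def S_CHE : Prop := ∃ c1 C1 : ℝ, 0 < c1 ∧ 0 < C1 ∧ ∀ c : ℕ, 1 ≤ c → ∃ x0 : ℝ, ∀ x : ℝ, x0 ≤ x →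
  c1 * (c * x) ≤ TH c x ∧ TH c x ≤ C1 * (c * x)

/-- the sieve theorem: `t` almost prime (absolute quality `K`), `m` primes among `c i * t + 1` -/
def S_SIEVE : Prop := ∃ K : ℕ, 1 ≤ K ∧ ∀ m : ℕ, ∃ n w0 : ℕ, ∀ (c : Fin n → ℕ) (W b : ℕ),
  TupleOK n w0 c W b → ∀ ε : ℝ, 0 < ε → ∀ N : ℝ, ∃ x : ℝ, N ≤ x ∧
    x ^ (1 - ε) ≤ (((Icc 1 ⌊8 * x⌋₊).filter (fun t : ℕ => x / 8 ≤ (t : ℝ) ∧ t ≡ b [MOD W] ∧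
      (∀ p ∈ t.primeFactors, x ^ (1 / (K : ℝ)) ≤ (p : ℝ)) ∧
      m ≤ (univ.filter (fun i : Fin n => (c i * t + 1).Prime)).card)).card : ℝ)

/-! ## Part E: the tuple, Gupta–Murty, the end -/

/-- primes `π₀ < l₀ < π₁ < l₁ < …`, `2` has order `π s` modulo `l s` -/
def S_TU1 : Prop := ∀ N0 : ℕ, ∃ π l : ℕ → ℕ, ∀ s, (π s).Prime ∧ (l s).Prime ∧ N0 < π s ∧ π s < l s ∧
  l s < π (s + 1) ∧ orderOf (2 : ZMod (l s)) = π s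

/-- exponents with private primes of odd valuation -/
def S_TU2 : Prop := ∀ n N0 : ℕ, ∃ (e : Fin n → ℕ) (L : Fin n → Fin n → ℕ), StrictMono e ∧
  (∀ i, 3 ≤ e i) ∧ (∀ i, N0.factorial ∣ e i) ∧ ∀ i j, i < j →
    (L i j).Prime ∧ N0 < L i j ∧ Odd (padicValNat (L i j) (2 ^ (e j - e i) - 1)) ∧
    ∀ k h, k < h → (k, h) ≠ (i, j) → ¬ L i j ∣ 2 ^ (e h - e k) - 1

/-- the tuple -/
def S_TUP : Prop := ∀ n w0 : ℕ, ∃ (e : Fin n → ℕ) (W b : ℕ), StrictMono e ∧ (∀ i, 3 ≤ e i) ∧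
  TupleOK n w0 (fun i => 2 ^ e i) W b ∧
  (∀ i j, i < j → ∀ t : ℕ, t ≡ b [MOD W] →
    jacobiSym ((2 ^ e i * t + 1 : ℕ) : ℤ) (2 ^ e j * t + 1) = -1) ∧
  (∀ i j, i < j → ∃ l : ℕ, l.Prime ∧ l ∣ 2 ^ (e j - e i) - 1 ∧
    ∀ i', i' < j → i' ≠ i → ¬ l ∣ 2 ^ (e j - e i') - 1)

def S_GM : Prop := ∀ (K : ℕ) (d : Fin K → ℕ), 1 ≤ K → (∀ i, 1 ≤ d i) →
  (∀ i, ∃ l : ℕ, l.Prime ∧ l ∣ 2 ^ d i - 1 ∧ ∀ i', i' ≠ i → ¬ l ∣ 2 ^ d i' - 1) →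
  ∃ C : ℝ, 0 < C ∧ ∀ T : ℝ, 1 ≤ T → (GMset d T).Finite ∧
    ((GMset d T).ncard : ℝ) ≤ C * T ^ (1 + 1 / (K : ℝ))

def S_FIN : Prop := ∀ N : ℕ, ∃ p q : ℕ, N < p ∧ p.Prime ∧ q.Prime ∧ 7 ≤ q ∧ (p - 1) ∣ (q - 1) ∧
  orderOf (p : ZMod q) = q - 1

/-! ## Part F: L-functions on the line `1 + 1/log x` -/

def S_LUP : Prop := ∀ j : ℕ, ∃ C : ℝ, 0 < C ∧ ∀ (r : ℕ) [NeZero r] (χ : DirichletCharacter ℂ r), χ ≠ 1 →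
  ∀ s : ℂ, 1 < s.re → s.re ≤ 2 → ‖Lj χ j s‖ ≤ C * (LL r s.im) ^ (j + 1)

def S_ZUP : Prop := ∃ C : ℝ, 0 < C ∧ ∀ (r : ℕ) [NeZero r] (s : ℂ), 1 < s.re → s.re ≤ 2 →
  (s.im ≠ 0 → ‖Lj (1 : DirichletCharacter ℂ r) 0 s‖ ≤ C * (LL r s.im) ^ 2 * (1 + 1 / |s.im|)) ∧
  ‖Lj (1 : DirichletCharacter ℂ r) 0 s‖ ≤ 2 / (s.re - 1)

def S_LIP : Prop := ∃ C : ℝ, 0 < C ∧ ∀ (r : ℕ) [NeZero r] (χ : DirichletCharacter ℂ r), χ ≠ 1 →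
  (∀ (a b t : ℝ), 1 < a → a ≤ 2 → 1 < b → b ≤ 2 →
    ‖Lj χ 0 (a + t * Complex.I) - Lj χ 0 (b + t * Complex.I)‖ ≤ C * |a - b| * (LL r t) ^ 2) ∧
  (∀ (a t : ℝ), 1 < a → a ≤ 2 → |t| ≤ 1 →
    ‖Lj χ 0 (a + t * Complex.I) - χ.LFunction 1‖ ≤ C * ((a - 1) + |t|) * (LL r 0) ^ 2)

/-- repulsion: `ζ L(χ₀) L(χ₁) L(χ₀χ₁) ≥ 1` -/
def S_REPP : Prop := ∀ (r0 r1 : ℕ) [NeZero r0] [NeZero r1] (χ0 : DirichletCharacter ℂ r0)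
  (χ1 : DirichletCharacter ℂ r1), χ0 ^ 2 = 1 → χ1 ^ 2 = 1 → χ0.IsPrimitive → χ1.IsPrimitive →
  (χ0.LFunction 1 ≠ χ1.LFunction 1) → ∃ ψ : DirichletCharacter ℂ (r0 * r1), ψ ≠ 1 ∧
    ∀ σ : ℝ, 1 < σ → 1 ≤ ‖riemannZeta σ‖ * ‖Lj χ0 0 σ‖ * ‖Lj χ1 0 σ‖ * ‖Lj ψ 0 σ‖

def S_REP : Prop := ∀ (B : ℕ) (N : ℝ), ∃ x : ℝ, N ≤ x ∧ Good B x

def S_LBD : Prop := ∀ B : ℕ, ∃ c x0 : ℝ, 0 < c ∧ ∀ x : ℝ, x0 ≤ x → Good B x →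
  ∀ (r : ℕ) [NeZero r], (r : ℝ) ≤ (Real.log x) ^ B → ∀ χ : DirichletCharacter ℂ r, χ.IsPrimitive →
  χ ≠ 1 → ∀ t : ℝ, c * (Real.log x) ^ (-(1 / 4) : ℝ) / (LL r t) ^ 8 ≤
    ‖Lj χ 0 ((1 + 1 / Real.log x : ℝ) + t * Complex.I)‖

def S_FJ : Prop := ∀ k : ℕ, ∃ C : ℝ, 0 < C ∧ ∀ (r : ℕ) [NeZero r] (χ : DirichletCharacter ℂ r), χ ≠ 1 →
  ∀ (s : ℂ) (δ : ℝ), 1 < s.re → s.re ≤ 2 → 0 < δ → δ ≤ 1 → δ ≤ ‖Lj χ 0 s‖ →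
  ‖Fj χ k s‖ ≤ C * ((LL r s.im) ^ 2 / δ) ^ (k + 1)

def S_FOUR : Prop := ∀ Φ : ℝ → ℂ, ContDiff ℝ 2 Φ → HasCompactSupport Φ → ∃ g : ℝ → ℂ, Continuous g ∧
  (∀ u, ‖g u‖ ≤ ((∫ v, ‖Φ v‖) + ∫ v, ‖iteratedDeriv 2 Φ v‖) / (1 + u ^ 2)) ∧
  ∀ v, Φ v = ∫ u, g u * Complex.exp (2 * Real.pi * Complex.I * u * v)

/-- Fourier representation of the weight -/
def S_RHOF : Prop := ∃ (g : ℝ → ℂ) (C : ℝ), 0 < C ∧ Continuous g ∧ (∀ u, ‖g u‖ ≤ C / (1 + u ^ 2)) ∧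
  ∀ w : ℝ, ((rho w : ℝ) : ℂ) = ∫ u, g u * Complex.exp (2 * Real.pi * Complex.I * u * w)

/-- Fourier representation of the test function of `SW`, uniform in `lam`, `σ` -/
def S_SWF : Prop := ∀ k : ℕ, ∃ C : ℝ, 0 < C ∧ ∀ lam σ : ℝ, 4 ≤ lam → 1 ≤ σ → σ ≤ 2 → ∃ g : ℝ → ℂ,
  Continuous g ∧ (∀ u, ‖g u‖ ≤ C / (1 + u ^ 2)) ∧
  ∀ w : ℝ, ((rho w * Real.exp (σ * w) / (1 + w / lam) ^ k : ℝ) : ℂ) =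
    ∫ u, g u * Complex.exp (2 * Real.pi * Complex.I * u * w)

/-- Siegel–Walfisz for good `x` -/
def S_SW : Prop := ∀ A B c : ℕ, 1 ≤ c → ∃ x0 : ℝ, ∀ x : ℝ, x0 ≤ x → Good B x →
  ∀ (r : ℕ) [NeZero r], (r : ℝ) ≤ (Real.log x) ^ B → ∀ χ : DirichletCharacter ℂ r, χ.IsPrimitive →
  χ ≠ 1 → ‖psiR (c * x) χ‖ ≤ x / (Real.log x) ^ A

/-! ## Part G: large sieve and Vaughan -/

open Classical in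
/-- sum over primitive characters -/
noncomputable def prs (r : ℕ) (F : DirichletCharacter ℂ r → ℝ) : ℝ :=
  ∑ χ : DirichletCharacter ℂ r, if χ.IsPrimitive then F χ else 0

/-- additive large sieve for separated points -/
def S_LSG : Prop := ∃ C : ℝ, 0 < C ∧ ∀ (J : Type) [Fintype J] (x : J → ℝ) (δ : ℝ), 0 < δ → δ ≤ 1 →
  (∀ i j, i ≠ j → ∀ m : ℤ, δ ≤ |x i - x j - m|) → ∀ (N M : ℕ), 1 ≤ N → ∀ a : ℕ → ℂ,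
  ∑ j, ‖∑ n ∈ Ioc M (M + N), a n * Complex.exp (2 * Real.pi * Complex.I * n * x j)‖ ^ 2 ≤
  C * (N + 1 / δ) * ∑ n ∈ Ioc M (M + N), ‖a n‖ ^ 2

/-- additive large sieve at Farey fractions -/
def S_LSA : Prop := ∃ C : ℝ, 0 < C ∧ ∀ (Q N M : ℕ), 1 ≤ Q → 1 ≤ N → ∀ a : ℕ → ℂ,
  ∑ r ∈ Icc 1 Q, ∑ b ∈ (range r).filter (fun b => b.Coprime r),
    ‖∑ n ∈ Ioc M (M + N), a n * Complex.exp (2 * Real.pi * Complex.I * n * b / r)‖ ^ 2 ≤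
  C * (N + Q ^ 2) * ∑ n ∈ Ioc M (M + N), ‖a n‖ ^ 2

/-- Gauss sums of primitive characters -/
def S_GAU : Prop := ∀ (r : ℕ) [NeZero r] (M N : ℕ) (a : ℕ → ℂ),
  (r : ℝ) / r.totient * prs r (fun χ => ‖∑ n ∈ Ioc M (M + N), a n * χ n‖ ^ 2) ≤
  ∑ b ∈ (range r).filter (fun b => b.Coprime r),
    ‖∑ n ∈ Ioc M (M + N), a n * Complex.exp (2 * Real.pi * Complex.I * n * b / r)‖ ^ 2

/-- large sieve -/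
def S_LS : Prop := ∃ C : ℝ, 0 < C ∧ ∀ (Q N M : ℕ), 1 ≤ Q → 1 ≤ N → ∀ a : ℕ → ℂ,
  ∑ r ∈ Icc 1 Q, (r : ℝ) / r.totient * prs r (fun χ => ‖∑ n ∈ Ioc M (M + N), a n * χ n‖ ^ 2) ≤
  C * (N + Q ^ 2) * ∑ n ∈ Ioc M (M + N), ‖a n‖ ^ 2

def S_TAU2 : Prop := ∃ C : ℝ, 0 < C ∧ ∀ N : ℕ, 2 ≤ N →
  ∑ n ∈ Icc 1 N, (n.divisors.card : ℝ) ^ 2 ≤ C * N * (Real.log N) ^ 3

/-- Vaughan's identity -/
def S_VAU : Prop := ∀ (U V : ℝ) (n : ℕ), 1 ≤ U → 1 ≤ V → 1 ≤ n → U < n →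
  ArithmeticFunction.vonMangoldt n =
    (∑ d ∈ n.divisors, if (d : ℝ) ≤ V then (ArithmeticFunction.moebius d : ℝ) * Real.log (n / d : ℕ) else 0) -
    (∑ k ∈ n.divisors, if (k : ℝ) ≤ U * V then
        (∑ d ∈ k.divisors, if (d : ℝ) ≤ V ∧ ((k / d : ℕ) : ℝ) ≤ U then
          (ArithmeticFunction.moebius d : ℝ) * ArithmeticFunction.vonMangoldt (k / d) else 0) else 0) +
    ∑ m ∈ n.divisors, if V < (m : ℝ) ∧ U < ((n / m : ℕ) : ℝ) then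
        (∑ d ∈ m.divisors, if V < (d : ℝ) then (ArithmeticFunction.moebius d : ℝ) else 0) *
          ArithmeticFunction.vonMangoldt (n / m) else 0

/-- type I sums -/
def S_TI : Prop := ∃ C : ℝ, 0 < C ∧ ∀ (X : ℝ) (r : ℕ) [NeZero r] (χ : DirichletCharacter ℂ r) (d : ℕ),
  2 ≤ X → χ ≠ 1 → 1 ≤ d →
  ‖∑ m ∈ Icc 1 ⌊8 * X / d⌋₊, χ m * (rho (Real.log (d * m / X)) : ℂ)‖ ≤ C * r ∧
  ‖∑ m ∈ Icc 1 ⌊8 * X / d⌋₊, χ m * (Real.log m : ℂ) * (rho (Real.log (d * m / X)) : ℂ)‖ ≤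
    C * r * Real.log X

/-- bilinear sums -/
noncomputable def TII (X : ℝ) (a b : ℕ → ℂ) {r : ℕ} (χ : DirichletCharacter ℂ r) : ℂ :=
  ∑ m ∈ Icc 1 ⌊8 * X⌋₊, ∑ n ∈ Icc 1 ⌊8 * X / m⌋₊,
    a m * b n * χ (m * n : ℕ) * (rho (Real.log (m * n / X)) : ℂ)

/-- large sieve for a product of two sums -/
def S_TIB : Prop := ∃ C : ℝ, 0 < C ∧ ∀ (Q M N : ℕ), 1 ≤ Q → 1 ≤ M → 1 ≤ N → ∀ a b : ℕ → ℂ,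
  ∑ r ∈ Icc 1 Q, (r : ℝ) / r.totient * prs r (fun χ =>
      ‖∑ m ∈ Ioc M (2 * M), a m * χ m‖ * ‖∑ n ∈ Icc 1 N, b n * χ n‖) ≤
  C * Real.sqrt (((M : ℝ) + Q ^ 2) * (N + Q ^ 2) * (∑ m ∈ Ioc M (2 * M), ‖a m‖ ^ 2) *
    ∑ n ∈ Icc 1 N, ‖b n‖ ^ 2)

def S_TII : Prop := ∃ (C : ℝ) (k : ℕ), 0 < C ∧ ∀ (X R1 : ℝ) (a b : ℕ → ℂ), 2 ≤ X → 1 ≤ R1 →
  (∀ m : ℕ, ‖a m‖ ≤ m.divisors.card) → (∀ n : ℕ, 1 ≤ n → ‖b n‖ ≤ Real.log n) →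
  (∀ m : ℕ, (m : ℝ) ≤ X ^ (1 / 5 : ℝ) → a m = 0) → (∀ n : ℕ, (n : ℝ) ≤ X ^ (1 / 5 : ℝ) → b n = 0) →
  ∑ r ∈ (Icc 1 ⌊X ^ (1 / 5 : ℝ)⌋₊).filter (fun r : ℕ => R1 < r),
    1 / (r.totient : ℝ) * prs r (fun χ => ‖TII X a b χ‖) ≤
  C * (Real.log X) ^ k * (X / R1 + X ^ (19 / 20 : ℝ))

def S_LARGE : Prop := ∃ (C : ℝ) (k : ℕ), 0 < C ∧ ∀ (X R1 : ℝ), 2 ≤ X → 1 ≤ R1 →
  ∑ r ∈ (Icc 1 ⌊X ^ (1 / 5 : ℝ)⌋₊).filter (fun r : ℕ => R1 < r),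
    1 / (r.totient : ℝ) * prs r (fun χ => ‖psiR X χ‖) ≤
  C * (Real.log X) ^ k * (X / R1 + X ^ (19 / 20 : ℝ))

/-! ## Part H: Bombieri–Vinogradov -/

open Classical in
/-- sum over nonprincipal characters -/
noncomputable def nps (q : ℕ) (F : DirichletCharacter ℂ q → ℝ) : ℝ :=
  ∑ χ : DirichletCharacter ℂ q, if χ = 1 then 0 else F χ


def S_CHAR : Prop := ∀ c : ℕ, 1 ≤ c → ∃ x0 : ℝ, ∀ (x : ℝ) (q : ℕ), x0 ≤ x → 1 ≤ q →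
  (q : ℝ) ≤ x ^ (1 / 5 : ℝ) → Emax c x q ≤ 1 / (q.totient : ℝ) *
    nps q (fun χ => ‖thetaR c x χ‖)

def S_THPSI : Prop := ∀ c : ℕ, 1 ≤ c → ∃ C x0 : ℝ, 0 < C ∧ ∀ (x : ℝ) (q : ℕ) [NeZero q]
  (χ : DirichletCharacter ℂ q), x0 ≤ x → ‖thetaR c x χ - psiR (c * x) χ‖ ≤ C * x ^ (3 / 5 : ℝ)

def S_PRIMV : Prop := ∃ C : ℝ, 0 < C ∧ ∀ (X : ℝ) (q : ℕ) [NeZero q] (χ : DirichletCharacter ℂ q), 2 ≤ X →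
  ‖psiR X χ - psiR X χ.primitiveCharacter‖ ≤ C * Real.log X * (1 + Real.log q)

/-- sum over all characters to sum over primitive characters -/
def S_REARR : Prop := ∃ C : ℝ, 0 < C ∧ ∀ (Q : ℕ) (F : ∀ r : ℕ, DirichletCharacter ℂ r → ℝ), 2 ≤ Q →
  (∀ r χ, 0 ≤ F r χ) →
  ∑ q ∈ Icc 1 Q, 1 / (q.totient : ℝ) * nps q (fun χ => F _ χ.primitiveCharacter) ≤
    C * Real.log Q * ∑ r ∈ Icc 2 Q, 1 / (r.totient : ℝ) * prs r (F r)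

def S_BV : Prop := ∀ A c : ℕ, 1 ≤ c → ∃ (B : ℕ) (x0 : ℝ), ∀ x : ℝ, x0 ≤ x → Good B x →
  ∑ q ∈ Icc 1 ⌊x ^ (1 / 5 : ℝ)⌋₊, Emax c x q ≤ x / (Real.log x) ^ A

def S_BVT : Prop := ∀ A K c W : ℕ, 1 ≤ c → 1 ≤ W → ∃ (B : ℕ) (x0 : ℝ), ∀ x : ℝ, x0 ≤ x → Good B x →
  ∑ q ∈ (Icc 1 ⌊x ^ (1 / 6 : ℝ)⌋₊).filter Squarefree,
    (K : ℝ) ^ q.primeFactors.card * Emax c x (W * q) ≤ x / (Real.log x) ^ A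

/-! ## the final theorem -/

def S_FINAL : Prop := {p : ℕ | p.Prime ∧ ∃ q : ℕ, q.Prime ∧ 7 ≤ q ∧ (p - 1) ∣ (q - 1) ∧
  orderOf (p : ZMod q) = q - 1}.Infinite

end MTA
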